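import Pool.Agent.helper17.EXT.SpecJ
set_option autoImplicit false
open Finset
namespace Pool.Agent.EXT
open Pool.Agent.EXC

theorem JFG_one {K : Type} [Field K] : RAF (RingEquiv.refl K) (1 : MulAut (GF (RingEquiv.refl K))) :=
  fun a ha => ⟨a, ha, fun _ => Iff.rfl⟩

theorem JFG_mul {K : Type} [Field K] (x y : MulAut (GF (RingEquiv.refl K))) (hx : RAF (RingEquiv.refl K) x)
    (hy : RAF (RingEquiv.refl K) y) : RAF (RingEquiv.refl K) (x * y) := by
  intro a ha
  obtain ⟨b, hb, hb2⟩ := hy a ha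
  obtain ⟨c, hc, hc2⟩ := hx b hb
  exact ⟨c, hc, fun f => (hb2 f).trans (hc2 (y f))⟩

theorem JFG_pow {K : Type} [Field K] (x : MulAut (GF (RingEquiv.refl K))) (hx : RAF (RingEquiv.refl K) x)
    (n : ℕ) : RAF (RingEquiv.refl K) (x ^ n) := by
  induction n with
  | zero => rw [pow_zero]; exact JFG_one
  | succ n ih => rw [pow_succ]; exact JFG_mul _ _ ih hx

theorem JFG (hJAU : JAU_stmt) (hJSW : JSW_stmt) (hJSI : JSI_stmt) (hJGR : JGR_stmt) : JFG_stmt := by
  intro hR K _ _ h2 x hx1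
  rcases hJAU K h2 x with h | h
  · exact hR K h2 x h hx1
  have hfin0 : Finite (LT (RingEquiv.refl K)) := Subtype.finite
  have hfin1 : Finite (GF (RingEquiv.refl K)) := inferInstance
  have hfin : Finite (MulAut (GF (RingEquiv.refl K))) :=
    Finite.of_injective (fun y : MulAut (GF (RingEquiv.refl K)) => (y : GF (RingEquiv.refl K) → GF (RingEquiv.refl K)))
      DFunLike.coe_injective
  obtain ⟨h3, h4, h5⟩ := hJSW K h2 x h
  have heven : ∀ j : ℕ, RAF (RingEquiv.refl K) (x ^ (2 * j)) := by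
    intro j
    rw [pow_mul, pow_two]
    exact JFG_pow _ h4 j
  have hodd : ∀ j : ℕ, SwF (x ^ (2 * j + 1)) := by
    intro j
    rw [pow_succ']
    exact h5 _ (heven j)
  have hn0 : 0 < orderOf x := orderOf_pos x
  have hxn : x ^ orderOf x = 1 := pow_orderOf_eq_one x
  rcases Nat.even_or_odd' (orderOf x) with ⟨m, hm | hm⟩
  · have hyy : x ^ m * x ^ m = 1 := by
      rw [← pow_add, ← two_mul, ← hm, hxn]
    rcases Nat.even_or_odd' m with ⟨j, hj | hj⟩
    · have hy1 : x ^ m ≠ 1 := pow_ne_one_of_lt_orderOf (by omega) (by omega)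
      have hy2 : RAF (RingEquiv.refl K) (x ^ m) := by rw [hj]; exact heven j
      obtain ⟨⟨k, hk1, hk2⟩, h6, h7⟩ := hR K h2 (x ^ m) hy2 hy1
      exact ⟨⟨k, (hJGR _ x 3 k).1 m hk1, hk2⟩, (hJGR _ x 5 4).1 m h6, (hJGR _ x 7 6).1 m h7⟩
    · have hy2 : SwF (x ^ m) := by rw [hj]; exact hodd j
      obtain ⟨h6, h7, h8⟩ := hJSI K h2 (x ^ m) hyy hy2
      exact ⟨⟨2, (hJGR _ x 3 2).1 m h6, by norm_num⟩, (hJGR _ x 5 4).1 m h7, (hJGR _ x 7 6).1 m h8⟩
  · exfalso
    have h6 : SwF (x ^ orderOf x) := by rw [hm]; exact hodd m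
    rw [hxn] at h6
    exact (hJSW K h2 1 h6).1 JFG_one

end Pool.Agent.EXT
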